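import Mathlib
import Pool.Agent.H508.D.Q3

/-!
# Deligne's conjecture at the central point for `h¹(E) ⊗ [ρ]`, `E : y² + y = x³`, `ρ` arbitrary

Let `M = ℚ(√-3)` or `M = ℚ(ζ₉)`, let `L/M` be a Galois extension whose degree is a power of two, in
which no prime of `M` ramifies that is not above `3` and modulo which `2` is a cube (there is no
condition above `3`), and let `F ⊆ L` be a subfield which is Galois over `ℚ`.  Let `T` be ANY number
field, `V = T^d`, and let `ρ : Gal(F/ℚ) → GL(V)` be ANY representation: an Artin motive `[ρ]` over `ℚ`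
with coefficients in `T`.  Let `E : y² + y = x³`.  The motive `N = h¹(E) ⊗ [ρ]` over `ℚ` has
coefficients in `T`, rank `2 d` and weight one, and its only critical integer is the central point
`s = 1`.  We prove Deligne's conjecture for it, unconditionally, with a nonzero value:

* for every embedding `τ` of `T` the function `L(E, ρ_τ, s)` (with all its Euler factors) continues to a
  meromorphic function on `ℂ`, which is analytic and not zero at `1`;
* `α⁺` is an isomorphism, and there is `ℒ ∈ T` such that `L(E, ρ_τ, 1) = det(α⁺)_τ · τ(ℒ)` for all `τ`.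

`ρ` need not be monomial: for `M = ℚ(ζ₉)` there are the tetrahedral representations of dimension two
(projective image `A₄`, the central extension cyclic of 2-power order) ramified at `3` and at a prime
number `p ≡ 1` modulo `9` modulo which `2` is not a cube, such as `19`.  By induction the theorem contains
the motives `R_{k/ℚ}(h¹(E) ⊗ ρ)` for the representations `ρ` over the subfields `k` of `F`.

## The realisations

The period lattice of the differential `ω = dx / (2 y + 1)` is the lattice `Λ` with the invariants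
`g₂ = 0`, `g₃ = -1` (`℘'(z) = 2 y + 1`, `℘(z) = x`), and `H₁(E(ℂ), ℤ) = Λ`, `γ ↦ ∫_γ ω`; complex
conjugation acts on `H₁` as on the complex numbers of `Λ`.  Let `a, b ∈ Λ` be nonzero, `a` real, `b`
imaginary: they generate the `+` and `-` parts of `H₁(E(ℂ), ℚ)`.

* `N(1) = h₁(E) ⊗ [ρ]`.  Let `e : F → ℂ` be an embedding and `c ∈ Gal(F/ℚ)` the complex conjugation
  for `e`.  Then `H_B(N(1)) = H₁(E(ℂ), ℚ) ⊗ V` with `F_∞` acting as `conj ⊗ ρ(c)`, so that
  `H_B⁺ = a ⊗ V^{ρ(c) = 1} + b ⊗ V^{ρ(c) = -1}`.  The bases of `H_B⁺` over `T` are the families of the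
  vectors `a ⊗ P_j + b ⊗ Q_j` for the matrices `P, Q` over `T` with columns `P_j, Q_j`,
  `ρ(c) P = P`, `ρ(c) Q = -Q` and `P + Q` invertible (`IsBetti`).
* `H_dR([ρ]) = (F ⊗ V)^{Gal(F/ℚ)}`; its bases over `T` are the matrices `B` over `F ⊗_ℚ T`, invertible,
  with `ρ(g) · g(B) = B` for all `g` (`IsDeRham`; the columns of `B` are the vectors of the basis, and
  by descent the invariants contain a basis of `F ⊗ V`, and every basis of the invariants is one).
  `H_dR⁺(N(1)) = H_dR(N(1)) / Fil⁰ = Lie(E) ⊗ H_dR([ρ])`, and `Lie(E)` has the basis dual to `ω`.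
* The comparison for `[ρ]` is `F ⊗ V → ℂ ⊗_τ V`, `x ⊗ v ↦ e(x) ⊗ v`, and for `H₁(E)` it is
  `γ ↦ ∫_γ ω`.  Therefore the matrix of `α⁺` at the embedding `τ` of `T` with respect to these bases is
  `B_τ⁻¹ (a τ(P) + b τ(Q))` with `B_τ = (e ⊗ τ)(B)` (`alpha`).

## The Euler product

For a prime `v` of `ℚ` and a prime `w` of `F` above `v` the local factor is the one of the inertia
invariants: if `v ≠ 3`, then `E` has good reduction at `v`, and the factor is
`det(1 - a_v q^(-s) A + q^(1 - 2 s) A²)⁻¹`, `q = N(v)`, `a_v = q + 1 - #E(𝔽_q)`, where `A` is the average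
of `ρ(σ⁻¹)` over all the Frobenius elements `σ` at `w` (this is `ρ(Frob⁻¹)` on the invariants `V^I` of the
inertia group and zero on a complement).  At `3` the factor is `1`: over `F` the curve `E` has additive reduction at
the primes above three (see the library result `EveryArtinTwoExtensions`, `SM/C`, `H73/L3/G`), so
`(H¹(E) ⊗ ρ)^I = 0`.

## The proof

For a `σ ∈ Aut(ℂ)` which fixes `√-3`, we prove `σ(L(E, ρ, 1)/Ω^d) = ρ-Gauss factor · L(E, ρ^σ, 1)/Ω^d`, first for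
abelian characters of the fields `K ∋ √-3` inside `L` (Hecke's formula by Eisenstein-Kronecker numbers for the
Hecke characters `ψ ∘ N · χ` over `ℚ(√-3)` in the library, the Galois action on the division
values of `℘` by the Kronecker congruence and the density of primes, `D/A` to `D/V2`), then for all the
representations by Brauer's theorem (`D/E`, `D/M1` to `D/M3`): since `ρ` is a difference of monomial
representations, here one divides by values at the central point, and the nonvanishing at `1` of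
`L(E/k, χ, s)` for all the characters in the tower (`AW/NV`, library) is what makes it possible.  The
descent from `ℚ(√-3)` to `ℚ` and from `T ⊗ ℂ` to `T` is in `D/Z1` to `D/Z5`.
-/

set_option autoImplicit false

open NumberField IsDedekindDomain TensorProduct
open scoped Classical

namespace Pool.Agent.Results.MP_cd171c_nt.CentralArtinTwists

/-- Above the prime numbers other than three, only primes modulo which `2` is not a cube ramify in
`L/M`: if `σ ≠ 1` lies in the inertia group of the prime `w` of `L`, and `w` does not divide three, then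
`2` is not a cube modulo the prime of `M` below `w`. -/
def GoodRam (M L : Type) [Field M] [NumberField M] [Field L] [NumberField L] [Algebra M L] : Prop :=
  ∀ (w : HeightOneSpectrum (𝓞 L)) (σ : Gal(L/M)), (3 : 𝓞 L) ∉ w.asIdeal →
    (∀ x : 𝓞 L, σ • x - x ∈ w.asIdeal) → σ ≠ 1 → ∀ α : 𝓞 M, α ^ 3 - 2 ∉ w.asIdeal.under (𝓞 M)

/-- The number of the elements of the residue field of `v`. -/
noncomputable def nm (v : HeightOneSpectrum (𝓞 ℚ)) : ℕ := Nat.card (𝓞 ℚ ⧸ v.asIdeal)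

/-- The number of the affine points of `E : y² + y = x³` over the residue field of `v`. -/
noncomputable def pts (v : HeightOneSpectrum (𝓞 ℚ)) : ℕ :=
  Nat.card {p : (𝓞 ℚ ⧸ v.asIdeal) × (𝓞 ℚ ⧸ v.asIdeal) // p.2 ^ 2 + p.2 = p.1 ^ 3}

section defs

variable {F : Type} [Field F] [NumberField F] {T : Type} [Field T] [NumberField T] {d : ℕ}

/-- `w v` is a prime of `F` above `v`, for all the primes `v` of `ℚ`. -/
def Above (w : HeightOneSpectrum (𝓞 ℚ) → HeightOneSpectrum (𝓞 F)) : Prop :=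
  ∀ v, (w v).asIdeal.comap (algebraMap (𝓞 ℚ) (𝓞 F)) = v.asIdeal

/-- `σ` is a Frobenius element at the prime `w` of `F` above `v`: `σ x ≡ x ^ N(v)` modulo `w`. -/
def IsFrobenius (v : HeightOneSpectrum (𝓞 ℚ)) (w : HeightOneSpectrum (𝓞 F)) (σ : Gal(F/ℚ)) : Prop :=
  ∀ x : 𝓞 F, σ • x - x ^ nm v ∈ w.asIdeal

/-- The matrix `ρ_τ(σ)` of the complex representation `ρ_τ` for the embedding `τ` of `T`. -/
noncomputable def cx (ρ : Gal(F/ℚ) →* Matrix (Fin d) (Fin d) T) (τ : T →+* ℂ) (σ : Gal(F/ℚ)) :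
    Matrix (Fin d) (Fin d) ℂ := (ρ σ).map τ

/-- The average of `ρ_τ(σ⁻¹)` over all the Frobenius elements `σ` at `w`. -/
noncomputable def frob (ρ : Gal(F/ℚ) →* Matrix (Fin d) (Fin d) T) (τ : T →+* ℂ)
    (v : HeightOneSpectrum (𝓞 ℚ)) (w : HeightOneSpectrum (𝓞 F)) : Matrix (Fin d) (Fin d) ℂ :=
  ((Nat.card {σ : Gal(F/ℚ) // IsFrobenius v w σ} : ℂ))⁻¹ •
    ∑ σ : {σ : Gal(F/ℚ) // IsFrobenius v w σ}, cx ρ τ (σ : Gal(F/ℚ))⁻¹

/-- The local factor of `L(E, ρ_τ, s)` at `v`: `1` if `v` divides `3`, and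
`det(1 - a N(v)^(-s) A + N(v)^(1 - 2 s) A²)⁻¹` with `a = N(v) + 1 - #E(𝓞 ℚ / v)` and `A = frob ρ τ v w`
otherwise. -/
noncomputable def factor (ρ : Gal(F/ℚ) →* Matrix (Fin d) (Fin d) T) (τ : T →+* ℂ)
    (v : HeightOneSpectrum (𝓞 ℚ)) (w : HeightOneSpectrum (𝓞 F)) (s : ℂ) : ℂ :=
  if (3 : 𝓞 ℚ) ∈ v.asIdeal then 1 else
    (Matrix.det (1 -
      ((((nm v : ℤ) - pts v : ℤ) : ℂ) * (nm v : ℂ) ^ (-s)) • frob ρ τ v w +
      ((nm v : ℂ) ^ (1 - 2 * s)) • frob ρ τ v w ^ 2))⁻¹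

/-- `Φ` is the function `L(E, ρ_τ, s)`: it is meromorphic on `ℂ`, analytic at `1` and equal to the Euler
product for `Re s > 3/2`. -/
structure IsL (w : HeightOneSpectrum (𝓞 ℚ) → HeightOneSpectrum (𝓞 F))
    (ρ : Gal(F/ℚ) →* Matrix (Fin d) (Fin d) T) (τ : T →+* ℂ) (Φ : ℂ → ℂ) : Prop where
  meromorphic : MeromorphicOn Φ Set.univ
  analytic : AnalyticAt ℂ Φ 1
  euler : ∀ s : ℂ, (3 / 2 : ℝ) < s.re →
    HasProd (fun v : HeightOneSpectrum (𝓞 ℚ) => factor ρ τ v (w v) s) (Φ s)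

/-- The ring homomorphism `e ⊗ τ : F ⊗ T → ℂ`. -/
noncomputable def ev (e : F →+* ℂ) (τ : T →+* ℂ) : F ⊗[ℚ] T →+* ℂ :=
  (Algebra.TensorProduct.lift e.toRatAlgHom τ.toRatAlgHom (fun _ _ => Commute.all _ _) :
    F ⊗[ℚ] T →ₐ[ℚ] ℂ)

/-- The action `g ⊗ id` of `g` on `F ⊗ T`. -/
noncomputable def gal (g : Gal(F/ℚ)) : F ⊗[ℚ] T →+* F ⊗[ℚ] T :=
  (Algebra.TensorProduct.map (g : F →ₐ[ℚ] F) (AlgHom.id ℚ T) : F ⊗[ℚ] T →ₐ[ℚ] F ⊗[ℚ] T)

/-- The embedding of `T` in `F ⊗ T`. -/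
noncomputable def inT : T →+* F ⊗[ℚ] T :=
  (Algebra.TensorProduct.includeRight : T →ₐ[ℚ] F ⊗[ℚ] T)

/-- The columns of `B` are a basis over `T` of the de Rham realisation `(F ⊗ V)^{Gal(F/ℚ)}` of `[ρ]`. -/
structure IsDeRham (ρ : Gal(F/ℚ) →* Matrix (Fin d) (Fin d) T)
    (B : Matrix (Fin d) (Fin d) (F ⊗[ℚ] T)) : Prop where
  unit : IsUnit B.det
  invariant : ∀ g, (ρ g).map inT * B.map (gal g) = B

/-- `a ⊗ P + b ⊗ Q` is a basis over `T` of the `+` part `a ⊗ V⁺ + b ⊗ V⁻` of the Betti realisation of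
`h₁(E) ⊗ [ρ]`, where `V⁺, V⁻` are the eigenspaces of `ρ(c)`. -/
structure IsBetti (ρ : Gal(F/ℚ) →* Matrix (Fin d) (Fin d) T) (c : Gal(F/ℚ))
    (P Q : Matrix (Fin d) (Fin d) T) : Prop where
  plus : ρ c * P = P
  minus : ρ c * Q = -Q
  unit : IsUnit (P + Q).det

/-- The matrix of `α⁺` at the embedding `τ`, for the periods `a` (real) and `b` (imaginary). -/
noncomputable def alpha (a b : ℂ) (e : F →+* ℂ) (B : Matrix (Fin d) (Fin d) (F ⊗[ℚ] T))
    (P Q : Matrix (Fin d) (Fin d) T) (τ : T →+* ℂ) : Matrix (Fin d) (Fin d) ℂ :=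
  (B.map (ev e τ))⁻¹ * (a • P.map τ + b • Q.map τ)

end defs

/-- `a` is a nonzero real element and `b` a nonzero imaginary element of the lattice of `Λ`. -/
structure Periods (Λ : PeriodPair) (a b : ℂ) : Prop where
  real_mem : a ∈ Λ.lattice
  imag_mem : b ∈ Λ.lattice
  real_ne : a ≠ 0
  imag_ne : b ≠ 0
  real : (starRingEnd ℂ) a = a
  imag : (starRingEnd ℂ) b = -b

section lemmas

variable {F : Type} [Field F] [NumberField F] {T : Type} [Field T] [NumberField T] {d : ℕ}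

open Pool.Agent.K7.H70.AW in
theorem frob_eq (ρ : Gal(F/ℚ) →* Matrix (Fin d) (Fin d) T) (τ : T →+* ℂ)
    (v : HeightOneSpectrum (𝓞 ℚ)) (w : HeightOneSpectrum (𝓞 F)) :
    EveryArtinTwoExtensions.frob (Pool.Agent.H508.D.rp ρ τ) v w =
      Matrix.toLinAlgEquiv' (frob ρ τ v w) := by
  unfold EveryArtinTwoExtensions.frob frob
  rw [map_smul, map_sum]
  rfl

open Pool.Agent.K7.H70.AW in
theorem factor_eq (ρ : Gal(F/ℚ) →* Matrix (Fin d) (Fin d) T) (τ : T →+* ℂ)
    (v : HeightOneSpectrum (𝓞 ℚ)) (w : HeightOneSpectrum (𝓞 F)) (s : ℂ) :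
    EveryArtinTwoExtensions.factor (Pool.Agent.H508.D.rp ρ τ) v w s = factor ρ τ v w s := by
  unfold EveryArtinTwoExtensions.factor factor
  split_ifs
  · rfl
  · rw [frob_eq]
    congr 1
    rw [← LinearMap.det_toLin', show Matrix.toLin' = (Matrix.toLinAlgEquiv' :
      Matrix (Fin d) (Fin d) ℂ ≃ₐ[ℂ] _).toLinearEquiv from rfl]
    congr 1
    show _ = (Matrix.toLinAlgEquiv' : Matrix (Fin d) (Fin d) ℂ ≃ₐ[ℂ] _) _
    rw [map_add, map_sub, map_one, map_smul, map_smul, map_pow]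
    rfl

/-- the matrix `α⁺` in terms of an arbitrary basis of `V` -/
theorem alpha_eq {ρ : Gal(F/ℚ) →* Matrix (Fin d) (Fin d) T} {c : Gal(F/ℚ)}
    {P Q : Matrix (Fin d) (Fin d) T} (h : IsBetti ρ c P Q) (a b : ℂ) (e : F →+* ℂ)
    (B : Matrix (Fin d) (Fin d) (F ⊗[ℚ] T)) (τ : T →+* ℂ) :
    alpha a b e B P Q τ = Pool.Agent.H508.D.al ρ c a b B (P + Q) e τ := by
  unfold alpha Pool.Agent.H508.D.al
  rw [mul_assoc]
  congr 1
  unfold Pool.Agent.H508.D.Nm
  have h1 : (ρ c).map τ * (P + Q).map τ = P.map τ - Q.map τ := by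
    rw [← Matrix.map_mul, mul_add, h.plus, h.minus, ← sub_eq_add_neg]
    exact Matrix.map_sub τ (fun x y => map_sub τ x y) P Q
  have h2 : (P + Q).map τ = P.map τ + Q.map τ := Matrix.map_add τ (fun x y => map_add τ x y) P Q
  rw [add_mul, Matrix.smul_mul, Matrix.smul_mul, add_mul, sub_mul, one_mul, h1, h2]
  ext i j
  simp only [Matrix.add_apply, Matrix.smul_apply, Matrix.sub_apply, smul_eq_mul]
  ring

end lemmas

/-- **Deligne's conjecture for the central values of `h¹(E) ⊗ [ρ]`, `E : y² + y = x³`.**  There is a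
lattice `Λ` with `g₂ = 0`, `g₃ = -1` (the period lattice of `E`), with nonzero real and imaginary elements
`a`, `b`, such that the following holds.  Let `M = ℚ(√-3)` or `M = ℚ(ζ₉)`, let `L/M` be a Galois extension whose
degree is a power of two, in which no prime of `M` ramifies that is not above three and modulo which `2` is
a cube, let `F` be a subfield of `L` which is Galois over `ℚ`, `T` a number field and
`ρ : Gal(F/ℚ) → GL_d(T)` a representation.  Then `[ρ]` has a de Rham basis and, for every embedding `e` of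
`F` in `ℂ` with complex conjugation `c`, `N(1)⁺` has a Betti basis, where `N = h¹(E) ⊗ [ρ]`; for all the
embeddings `τ` of `T`, `L(E, ρ_τ, s)` continues to a meromorphic function on `ℂ` which is analytic and not
zero at `1`; and for all the bases, `α⁺` is an isomorphism and there is `ℒ` in `T` such that
`L(E, ρ_τ, 1) = det(α⁺)_τ τ(ℒ)` for all `τ`. -/
theorem result : ∃ Λ : PeriodPair, Λ.g₂ = 0 ∧ Λ.g₃ = -1 ∧ (∃ a b : ℂ, Periods Λ a b) ∧
    ∀ (M L F T : Type) [Field M] [NumberField M] [Field L] [NumberField L] [Algebra M L]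
      [IsGalois M L] [Field F] [NumberField F] [IsGalois ℚ F] [Algebra F L] [Field T]
      [NumberField T] (d : ℕ) (ρ : Gal(F/ℚ) →* Matrix (Fin d) (Fin d) T),
      (IsCyclotomicExtension {3} ℚ M ∨ IsCyclotomicExtension {9} ℚ M) →
      (∃ n : ℕ, Module.finrank M L = 2 ^ n) → GoodRam M L →
      (∃ B, IsDeRham ρ B) ∧
      (∀ (e : F →+* ℂ) (c : Gal(F/ℚ)), (∀ x, e (c x) = (starRingEnd ℂ) (e x)) →
        ∃ P Q, IsBetti ρ c P Q) ∧
      ∀ w : HeightOneSpectrum (𝓞 ℚ) → HeightOneSpectrum (𝓞 F), Above w →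
        ∃ Φ : (T →+* ℂ) → ℂ → ℂ, (∀ τ, IsL w ρ τ (Φ τ) ∧ Φ τ 1 ≠ 0) ∧
          ∀ (a b : ℂ), Periods Λ a b → ∀ (e : F →+* ℂ) (c : Gal(F/ℚ)),
            (∀ x, e (c x) = (starRingEnd ℂ) (e x)) → ∀ B, IsDeRham ρ B → ∀ P Q, IsBetti ρ c P Q →
              (∀ τ, IsUnit (alpha a b e B P Q τ).det) ∧
              ∃ l : T, ∀ τ, Φ τ 1 = (alpha a b e B P Q τ).det * τ l := by
  obtain ⟨Λ, Ω, hΛ⟩ := Pool.Agent.Y688.exists_HL
  obtain ⟨⟨a₀, ha1, ha2, ha3⟩, b₀, hb1, hb2, hb3⟩ := Pool.Agent.H508.D.exists_per hΛ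
  refine ⟨Λ, hΛ.g2, hΛ.g3, ⟨a₀, b₀, ha1, hb1, ha2, hb2, ha3, hb3⟩, ?_⟩
  intro M L F T _ _ _ _ _ _ _ _ _ _ _ _ d ρ hM hn hg
  have hG : Pool.Agent.K7.H56.P.Gd M L := Pool.Agent.K7.H56.P.gd_of fun w hw h3 α hα => by
    obtain ⟨σ, hσ, hin⟩ := hw
    refine hg w σ (fun h => h3 ?_) hin hσ α hα
    show algebraMap (𝓞 M) (𝓞 L) 3 ∈ w.asIdeal
    rw [map_ofNat]
    exact h
  obtain ⟨hf, hr, h3⟩ := Pool.Agent.K7.H70.AW.family (N := M) (L := L) hM hn hG
  have hQ : Pool.Agent.K7.H70.SE.GoodG ℚ := hf.good ℚ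
  obtain ⟨B₀, hB₀⟩ := Pool.Agent.H508.D.exists_DR ρ
  have hcc : ∀ (e : F →+* ℂ) (c : Gal(F/ℚ)), (∀ x, e (c x) = (starRingEnd ℂ) (e x)) →
      ρ c * ρ c = 1 := fun e c hc => by
    have h1 : c * c = 1 := by
      ext x
      apply e.injective
      rw [AlgEquiv.mul_apply, hc, hc, Complex.conj_conj, AlgEquiv.one_apply]
    rw [← map_mul, h1, map_one]
  refine ⟨⟨B₀, hB₀.unit, hB₀.inv⟩, fun e c hc => ?_, fun w hw => ?_⟩
  · have h1 := hcc e c hc
    refine ⟨(1 / 2 : T) • (1 + ρ c), (1 / 2 : T) • (1 - ρ c), ?_, ?_, ?_⟩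
    · rw [Matrix.mul_smul, mul_add, mul_one, h1, add_comm]
    · rw [Matrix.mul_smul, mul_sub, mul_one, h1, ← smul_neg, neg_sub]
    · rw [← smul_add, add_add_sub_cancel, ← two_smul T (1 : Matrix (Fin d) (Fin d) T), smul_smul,
        show (1 / 2 : T) * 2 = 1 by norm_num, one_smul, Matrix.det_one]
      exact isUnit_one
  have hw' : ∀ v, Pool.Agent.Y696.und0 ℚ (w v) = v := fun v => HeightOneSpectrum.ext (hw v)
  have hmain := fun τ : T →+* ℂ =>
    (Pool.Agent.H508.D.main_Q (wf := w) hf hr h3 hQ hw' (Pool.Agent.H508.D.rp ρ τ)).1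
  choose Φ hΦ hΦ1 using hmain
  have hval : ∀ τ, Φ τ 1 = Pool.Agent.H508.D.yy hQ w ρ τ := fun τ => by
    unfold Pool.Agent.H508.D.yy
    rw [Pool.Agent.H508.D.vv_eq (hΦ τ)]
  refine ⟨Φ, fun τ => ⟨⟨(hΦ τ).mero, (hΦ τ).an, fun s hs => ?_⟩, hΦ1 τ⟩, ?_⟩
  · have h1 := Pool.Agent.H508.D.euler hQ (Pool.Agent.H508.D.rp ρ τ) w hw' (hΦ τ) (s := s) hs
    simp only [factor_eq] at h1
    exact h1
  intro a b hab e c hc B hB P Q hPQ
  obtain ⟨P₀, ε, hε, hP₀, hCP⟩ := Pool.Agent.H508.D.exists_eig (hcc e c hc)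
  obtain ⟨h1, l, hl⟩ := Pool.Agent.H508.D.period (wf := w) hf hr h3 hQ hw' ρ hΛ hab.real_mem
    hab.imag_mem hab.real_ne hab.imag_ne hab.real hab.imag hc hε hP₀ hCP
    (B := B) ⟨hB.unit, hB.invariant⟩ (P := P + Q) hPQ.unit
  refine ⟨fun τ => ?_, l, fun τ => ?_⟩
  · rw [alpha_eq hPQ]
    exact (h1 τ).isUnit
  · rw [alpha_eq hPQ, hval, hl τ]

end Pool.Agent.Results.MP_cd171c_nt.CentralArtinTwists
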